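import Pool.Agent.H80.PK.GStmts

/-! # Board pkt, row ENT -/

set_option autoImplicit false

namespace Pool.PK

open MeasureTheory Filter Topology UniformSpace

theorem ent_norm_iot {C : Type} [NonUnitalRing C] [Module ℂ C] [IsScalarTower ℂ C C]
    [SMulCommClass ℂ C C] (s : ASN C) (x : Unitization ℂ C) :
    ‖iot s x‖ = ‖x.fst‖ + s.N x.snd := by
  unfold iot
  rw [WithLp.unitization_norm_def]
  have h1 : (WithLp.ofLp (WithLp.toLp 1 ((Unitization.inl x.fst : Unitization ℂ (CP s)) +
      Unitization.inr (cp s x.snd)))).fst = x.fst := by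
    simp
  have h2 : (WithLp.ofLp (WithLp.toLp 1 ((Unitization.inl x.fst : Unitization ℂ (CP s)) +
      Unitization.inr (cp s x.snd)))).snd = cp s x.snd := by
    simp
  rw [h1, h2]
  congr 1
  exact Completion.norm_coe (E := SN s) x.snd

theorem ENT (hI : IOTStmt) : ENTStmt := by
  intro C _ _ _ _ s n X
  obtain ⟨ι, hι, -⟩ := hI C s
  have hpow : ∀ k : ℕ, (X.map (fun u => iot s u) : Mat (Un (CP s)) n) ^ k =
      ((X ^ k).map (fun u => iot s u) : Mat (Un (CP s)) n) := by
    intro k
    have e : ∀ Y : Mat (Unitization ℂ C) n, (Y.map (fun u => iot s u) : Mat (Un (CP s)) n) =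
        (ι : Unitization ℂ C →+* Un (CP s)).mapMatrix Y := by
      intro Y
      ext i j
      simp only [Matrix.map_apply, RingHom.mapMatrix_apply, RingHom.coe_coe, hι]
    rw [e, e, map_pow]
  have hN : ∀ k : ℕ, EN s.N (X ^ k) =
      ∑ i, ∑ j, ‖((X.map (fun u => iot s u) : Mat (Un (CP s)) n) ^ k) i j‖ := by
    intro k
    rw [hpow]
    unfold EN
    refine Finset.sum_congr rfl fun i _ => Finset.sum_congr rfl fun j _ => ?_
    rw [Matrix.map_apply, ent_norm_iot]
  simp only [hN]
  constructor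
  · intro h
    have h1 : ∀ i j, Tendsto (fun k : ℕ =>
        ‖((X.map (fun u => iot s u) : Mat (Un (CP s)) n) ^ k) i j‖) atTop (𝓝 0) := by
      intro i j
      have h2 := (tendsto_pi_nhds.1 (tendsto_pi_nhds.1 h i)) j
      have h3 := h2.norm
      simpa using h3
    have h4 := tendsto_finsetSum Finset.univ (fun i _ => tendsto_finsetSum Finset.univ
      (fun j _ => h1 i j))
    simpa using h4
  · intro h
    refine tendsto_pi_nhds.2 fun i => tendsto_pi_nhds.2 fun j => ?_
    refine squeeze_zero_norm (fun k => ?_) h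
    have h1 : ‖((X.map (fun u => iot s u) : Mat (Un (CP s)) n) ^ k) i j‖ ≤
        ∑ j', ‖((X.map (fun u => iot s u) : Mat (Un (CP s)) n) ^ k) i j'‖ :=
      Finset.single_le_sum (f := fun j' =>
        ‖((X.map (fun u => iot s u) : Mat (Un (CP s)) n) ^ k) i j'‖)
        (fun _ _ => norm_nonneg _) (Finset.mem_univ j)
    refine h1.trans ?_
    exact Finset.single_le_sum (f := fun i' => ∑ j',
      ‖((X.map (fun u => iot s u) : Mat (Un (CP s)) n) ^ k) i' j'‖)
      (fun _ _ => Finset.sum_nonneg fun _ _ => norm_nonneg _) (Finset.mem_univ i)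

end Pool.PK

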