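import Pool.Agent.H80.PK.FStmts

/-! # Board pkt, row EX2 -/

set_option autoImplicit false

namespace Pool.PK

open MeasureTheory Filter Topology UniformSpace

theorem EX2 : EX2Stmt := by
  intro U A B _ _ _ _ _ _ _ ι κ c hι hb
  have hd : DenseRange ι.toLinearMap := hι
  have hn : ∃ C, ∀ x, ‖κ.toLinearMap x‖ ≤ C * ‖ι.toLinearMap x‖ := ⟨c, hb⟩
  obtain ⟨g, hg⟩ : ∃ g : A →L[ℂ] B, ∀ u, g (ι u) = κ u :=
    ⟨κ.toLinearMap.extendOfNorm ι.toLinearMap, fun u => LinearMap.extendOfNorm_eq hd hn u⟩
  have hmul : ∀ x y : A, g (x * y) = g x * g y := by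
    intro x y
    refine hι.induction_on₂ (p := fun x y => g (x * y) = g x * g y) ?_ ?_ x y
    · exact isClosed_eq (g.continuous.comp (continuous_fst.mul continuous_snd))
        ((g.continuous.comp continuous_fst).mul (g.continuous.comp continuous_snd))
    · intro u v
      rw [← map_mul, hg, hg, hg, map_mul]
  have hone : g 1 = 1 := by
    rw [← map_one ι, hg, map_one]
  exact ⟨AlgHom.ofLinearMap g.toLinearMap hone hmul, g.continuous, hg⟩

end Pool.PK

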